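import Mathlib
import Pool.Agent.H31.Nice

set_option autoImplicit false
open Pool.Agent.H31.Nice

namespace Pool.Agent.Results.MP_abf784_co.Counter

theorem result : ∃ S : Set OG, S.Finite ∧ (∃ F ∈ S, F.IsForest) ∧
    {k : ℕ | IsNice S k}.Finite :=
  ⟨{P3, C4}, Set.toFinite _, ⟨P3, Or.inl rfl, P3_forest⟩,
    (Set.finite_lt_nat 11).subset fun k hk => not_le.mp fun h => not_nice k h hk⟩

end Pool.Agent.Results.MP_abf784_co.Counter
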